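import Pool.Agent.H99.SG.Sig
import Pool.Agent.H69.AL.Cert

/-!
# [H99 SG] Families of polynomials with primitive recursive codes

`PZ z`, `PU s`, `PR F`: the families `z : α → ℤ`, `s : α → ℤ[X]`, `F : α → ℤ[x, y]` have primitive recursive codes. Closed under the ring
operations, powers, sums and products over ranges, coefficients, degrees; equality is a primitive recursive predicate.
-/

namespace Pool.Agent.H99.SG

open Pool.Agent.H8.Siegel Pool.Agent.H69.AL Pool.Agent.H98.AL

variable {α β : Type} [Primcodable α] [Primcodable β]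

/-- integers with primitive recursive codes -/
def PZ (z : α → ℤ) : Prop := ∃ f : α → ℕ × ℕ, Primrec f ∧ ∀ x, iv (f x) = z x

/-- polynomials in one variable with primitive recursive codes -/
def PU (s : α → Polynomial ℤ) : Prop := ∃ f : α → Code, Primrec f ∧ ∀ x, uni (f x) = s x

/-- polynomials in two variables with primitive recursive codes -/
def PR (F : α → P2) : Prop := ∃ f : α → Code, Primrec f ∧ ∀ x, toPoly (f x) = F x

/-! ### Integers -/

theorem PZ.iv {f : α → ℕ × ℕ} (h : Primrec f) : PZ fun x => iv (f x) := ⟨f, h, fun _ => rfl⟩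

theorem PZ.comp {z : α → ℤ} (h : PZ z) {g : β → α} (hg : Primrec g) : PZ fun x => z (g x) := by
  obtain ⟨f, hf, e⟩ := h
  exact ⟨fun x => f (g x), hf.comp hg, fun x => e (g x)⟩

theorem PZ.of_eq {z w : α → ℤ} (h : PZ z) (e : ∀ x, z x = w x) : PZ w := by
  obtain ⟨f, hf, e'⟩ := h
  exact ⟨f, hf, fun x => (e' x).trans (e x)⟩

theorem PZ.const (a : ℤ) : PZ fun _ : α => a := by
  obtain ⟨z, hz⟩ := exists_iv a
  exact ⟨fun _ => z, Primrec.const z, fun _ => hz⟩

theorem PZ.nat {f : α → ℕ} (h : Primrec f) : PZ fun x => (f x : ℤ) :=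
  ⟨fun x => (f x, 0), Primrec.pair h (Primrec.const 0), fun x => by simp [Pool.Agent.H69.AL.iv]⟩

theorem PZ.add {z w : α → ℤ} (h : PZ z) (k : PZ w) : PZ fun x => z x + w x := by
  obtain ⟨f, hf, e⟩ := h
  obtain ⟨g, hg, e'⟩ := k
  refine ⟨fun x => ((f x).1 + (g x).1, (f x).2 + (g x).2), ?_, fun x => ?_⟩
  · exact Primrec.pair (Primrec.nat_add.comp (Primrec.fst.comp hf) (Primrec.fst.comp hg))
      (Primrec.nat_add.comp (Primrec.snd.comp hf) (Primrec.snd.comp hg))
  · beta_reduce
    rw [← e x, ← e' x]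
    simp only [Pool.Agent.H69.AL.iv]
    push_cast
    ring

theorem PZ.neg {z : α → ℤ} (h : PZ z) : PZ fun x => -z x := by
  obtain ⟨f, hf, e⟩ := h
  refine ⟨fun x => ((f x).2, (f x).1), Primrec.pair (Primrec.snd.comp hf) (Primrec.fst.comp hf), fun x => ?_⟩
  beta_reduce
  rw [← e x]
  simp only [Pool.Agent.H69.AL.iv]
  ring

theorem PZ.sub {z w : α → ℤ} (h : PZ z) (k : PZ w) : PZ fun x => z x - w x :=
  (h.add k.neg).of_eq fun x => (sub_eq_add_neg _ _).symm

theorem PZ.mul {z w : α → ℤ} (h : PZ z) (k : PZ w) : PZ fun x => z x * w x := by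
  obtain ⟨f, hf, e⟩ := h
  obtain ⟨g, hg, e'⟩ := k
  refine ⟨fun x => ((f x).1 * (g x).1 + (f x).2 * (g x).2, (f x).1 * (g x).2 + (f x).2 * (g x).1), ?_, fun x => ?_⟩
  · have f1 := Primrec.fst.comp hf
    have f2 := Primrec.snd.comp hf
    have g1 := Primrec.fst.comp hg
    have g2 := Primrec.snd.comp hg
    exact Primrec.pair (Primrec.nat_add.comp (Primrec.nat_mul.comp f1 g1) (Primrec.nat_mul.comp f2 g2))
      (Primrec.nat_add.comp (Primrec.nat_mul.comp f1 g2) (Primrec.nat_mul.comp f2 g1))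
  · beta_reduce
    rw [← e x, ← e' x]
    simp only [Pool.Agent.H69.AL.iv]
    push_cast
    ring

theorem PZ.ite {c : α → Prop} (hc : PrimrecPred c) [DecidablePred c] {z w : α → ℤ} (h : PZ z) (k : PZ w) :
    PZ fun x => if c x then z x else w x := by
  obtain ⟨f, hf, e⟩ := h
  obtain ⟨g, hg, e'⟩ := k
  refine ⟨fun x => if c x then f x else g x, Primrec.ite hc hf hg, fun x => ?_⟩
  beta_reduce
  by_cases hx : c x
  · rw [if_pos hx, if_pos hx, e x]
  · rw [if_neg hx, if_neg hx, e' x]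

theorem PZ.eq {z w : α → ℤ} (h : PZ z) (k : PZ w) : PrimrecPred fun x => z x = w x := by
  obtain ⟨f, hf, e⟩ := h
  obtain ⟨g, hg, e'⟩ := k
  have h1 : PrimrecPred fun x => (f x).1 + (g x).2 = (g x).1 + (f x).2 :=
    PrimrecRel.comp Primrec.eq (Primrec.nat_add.comp (Primrec.fst.comp hf) (Primrec.snd.comp hg))
      (Primrec.nat_add.comp (Primrec.fst.comp hg) (Primrec.snd.comp hf))
  refine h1.of_eq fun x => ?_
  rw [← e x, ← e' x]
  simp only [Pool.Agent.H69.AL.iv]
  omega

theorem PZ.ne {z w : α → ℤ} (h : PZ z) (k : PZ w) : PrimrecPred fun x => z x ≠ w x := (h.eq k).not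

theorem PZ.natAbs {z : α → ℤ} (h : PZ z) : Primrec fun x => (z x).natAbs := by
  obtain ⟨f, hf, e⟩ := h
  refine (primrec_ivAbs.comp hf).of_eq fun x => ?_
  have h1 := ivAbs_eq (f x)
  rw [e x, Int.abs_eq_natAbs] at h1
  exact_mod_cast h1

theorem PZ.abs_le {z : α → ℤ} (h : PZ z) {n : α → ℕ} (hn : Primrec n) : PrimrecPred fun x => |z x| ≤ (n x : ℤ) :=
  (PrimrecRel.comp Primrec.nat_le h.natAbs hn).of_eq fun x => by
    rw [Int.abs_eq_natAbs]
    exact_mod_cast Iff.rfl

/-! ### Polynomials in two variables -/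

theorem PR.code {f : α → Code} (h : Primrec f) : PR fun x => toPoly (f x) := ⟨f, h, fun _ => rfl⟩

theorem PR.comp {F : α → P2} (h : PR F) {g : β → α} (hg : Primrec g) : PR fun x => F (g x) := by
  obtain ⟨f, hf, e⟩ := h
  exact ⟨fun x => f (g x), hf.comp hg, fun x => e (g x)⟩

theorem PR.of_eq {F G : α → P2} (h : PR F) (e : ∀ x, F x = G x) : PR G := by
  obtain ⟨f, hf, e'⟩ := h
  exact ⟨f, hf, fun x => (e' x).trans (e x)⟩

theorem PR.const (F : P2) : PR fun _ : α => F := by
  obtain ⟨c, hc⟩ := exists_code F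
  exact ⟨fun _ => c, Primrec.const c, fun _ => hc⟩

theorem PR.C {z : α → ℤ} (h : PZ z) : PR fun x => (MvPolynomial.C (z x) : P2) := by
  obtain ⟨f, hf, e⟩ := h
  refine ⟨fun x => constC (f x), primrec_constC.comp hf, fun x => ?_⟩
  beta_reduce
  rw [toPoly_constC, ← e x, Pool.Agent.H69.AL.iv]

theorem PR.add {F G : α → P2} (h : PR F) (k : PR G) : PR fun x => F x + G x := by
  obtain ⟨f, hf, e⟩ := h
  obtain ⟨g, hg, e'⟩ := k
  exact ⟨fun x => f x ++ g x, Primrec.list_append.comp hf hg, fun x => by rw [toPoly_append, e, e']⟩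

theorem PR.neg {F : α → P2} (h : PR F) : PR fun x => -F x := by
  obtain ⟨f, hf, e⟩ := h
  exact ⟨fun x => negC (f x), primrec_negC.comp hf, fun x => by rw [toPoly_negC, e]⟩

theorem PR.sub {F G : α → P2} (h : PR F) (k : PR G) : PR fun x => F x - G x :=
  (h.add k.neg).of_eq fun x => (sub_eq_add_neg _ _).symm

theorem PR.mul {F G : α → P2} (h : PR F) (k : PR G) : PR fun x => F x * G x := by
  obtain ⟨f, hf, e⟩ := h
  obtain ⟨g, hg, e'⟩ := k
  exact ⟨fun x => mulC (f x) (g x), primrec_mulC.comp hf hg, fun x => by rw [toPoly_mulC, e, e']⟩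

theorem PR.pow {F : α → P2} (h : PR F) {n : α → ℕ} (hn : Primrec n) : PR fun x => F x ^ n x := by
  obtain ⟨f, hf, e⟩ := h
  exact ⟨fun x => powC (f x) (n x), primrec_powC.comp hf hn, fun x => by rw [toPoly_powC, e]⟩

theorem PR.ite {c : α → Prop} (hc : PrimrecPred c) [DecidablePred c] {F G : α → P2} (h : PR F) (k : PR G) :
    PR fun x => if c x then F x else G x := by
  obtain ⟨f, hf, e⟩ := h
  obtain ⟨g, hg, e'⟩ := k
  refine ⟨fun x => if c x then f x else g x, Primrec.ite hc hf hg, fun x => ?_⟩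
  beta_reduce
  by_cases hx : c x
  · rw [if_pos hx, if_pos hx, e x]
  · rw [if_neg hx, if_neg hx, e' x]

/-- sums over ranges -/
theorem PR.sum {F : α → ℕ → P2} (h : PR fun p : α × ℕ => F p.1 p.2) {n : α → ℕ} (hn : Primrec n) :
    PR fun x => ∑ i ∈ Finset.range (n x), F x i := by
  obtain ⟨f, hf, e⟩ := h
  refine ⟨fun x => Nat.rec [] (fun i c => c ++ f (x, i)) (n x), ?_, fun x => ?_⟩
  · refine Primrec.nat_rec' (f := n) (g := fun _ => ([] : Code)) (h := fun x (v : ℕ × Code) => v.2 ++ f (x, v.1)) hn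
      (Primrec.const []) ?_
    exact Primrec.list_append.comp (Primrec.snd.comp Primrec.snd)
      (hf.comp (Primrec.pair Primrec.fst (Primrec.fst.comp Primrec.snd)))
  · have key : ∀ m : ℕ, toPoly (Nat.rec (motive := fun _ => Code) [] (fun i c => c ++ f (x, i)) m) =
        ∑ i ∈ Finset.range m, F x i := by
      intro m
      induction m with
      | zero => simp
      | succ m ih =>
        have e2 : toPoly (f (x, m)) = F x m := e (x, m)
        rw [Finset.sum_range_succ, ← ih, ← e2]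
        change toPoly (_ ++ f (x, m)) = _
        rw [toPoly_append]
    exact key (n x)

/-- products over ranges -/
theorem PR.prod {F : α → ℕ → P2} (h : PR fun p : α × ℕ => F p.1 p.2) {n : α → ℕ} (hn : Primrec n) :
    PR fun x => ∏ i ∈ Finset.range (n x), F x i := by
  obtain ⟨f, hf, e⟩ := h
  obtain ⟨c1, hc1⟩ := exists_code (1 : P2)
  refine ⟨fun x => Nat.rec c1 (fun i c => mulC c (f (x, i))) (n x), ?_, fun x => ?_⟩
  · refine Primrec.nat_rec' (f := n) (g := fun _ => c1) (h := fun x (v : ℕ × Code) => mulC v.2 (f (x, v.1))) hn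
      (Primrec.const c1) ?_
    exact primrec_mulC.comp (Primrec.snd.comp Primrec.snd)
      (hf.comp (Primrec.pair Primrec.fst (Primrec.fst.comp Primrec.snd)))
  · have key : ∀ m : ℕ, toPoly (Nat.rec (motive := fun _ => Code) c1 (fun i c => mulC c (f (x, i))) m) =
        ∏ i ∈ Finset.range m, F x i := by
      intro m
      induction m with
      | zero => simp [hc1]
      | succ m ih =>
        have e2 : toPoly (f (x, m)) = F x m := e (x, m)
        rw [Finset.prod_range_succ, ← ih, ← e2]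
        change toPoly (mulC _ (f (x, m))) = _
        rw [toPoly_mulC]
    exact key (n x)

theorem PR.eq {F G : α → P2} (h : PR F) (k : PR G) : PrimrecPred fun x => F x = G x := by
  obtain ⟨f, hf, e⟩ := h
  obtain ⟨g, hg, e'⟩ := k
  exact (PrimrecRel.comp primrec_eqC hf hg).of_eq fun x => by rw [eqC_iff, e, e']

theorem PR.ne {F G : α → P2} (h : PR F) (k : PR G) : PrimrecPred fun x => F x ≠ G x := (h.eq k).not

/-- the coefficient of `x^i y^j` -/
theorem PR.coeff {F : α → P2} (h : PR F) {i j : α → ℕ} (hi : Primrec i) (hj : Primrec j) :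
    PZ fun x => MvPolynomial.coeff (ex (i x) (j x)) (F x) := by
  obtain ⟨f, hf, e⟩ := h
  have hp : Primrec fun x => (f x, i x, j x) := Primrec.pair hf (Primrec.pair hi hj)
  refine ⟨fun x => (cP (f x) (i x) (j x), cN (f x) (i x) (j x)),
    Primrec.pair (primrec_cP.comp hp) (primrec_cN.comp hp), fun x => ?_⟩
  beta_reduce
  rw [← e x, coeff_ex]
  rfl

theorem PR.totalDegree {F : α → P2} (h : PR F) : Primrec fun x => (F x).totalDegree := by
  obtain ⟨f, hf, e⟩ := h
  exact (primrec_tdC.comp hf).of_eq fun x => by rw [tdC_eq, e]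

/-- a bound for all coefficients -/
theorem PR.height {F : α → P2} (h : PR F) {n : α → ℕ} (hn : Primrec n) :
    PrimrecPred fun x => ∀ t, |MvPolynomial.coeff t (F x)| ≤ (n x : ℤ) := by
  obtain ⟨f, hf, e⟩ := h
  exact (PrimrecRel.comp Primrec.nat_le (primrec_htC.comp hf) hn).of_eq fun x => by rw [htC_le, e]

theorem PR.shf {F : α → P2} (h : PR F) {c : α → ℕ} (hc : Primrec c) : PR fun x => shf (c x) (F x) := by
  obtain ⟨f, hf, e⟩ := h
  exact ⟨fun x => shC (f x) (c x), primrec_shC.comp hf hc, fun x => by rw [toPoly_shC', e]⟩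

/-! ### Polynomials in one variable -/

theorem PU.code {f : α → Code} (h : Primrec f) : PU fun x => uni (f x) := ⟨f, h, fun _ => rfl⟩

theorem PU.comp {F : α → Polynomial ℤ} (h : PU F) {g : β → α} (hg : Primrec g) : PU fun x => F (g x) := by
  obtain ⟨f, hf, e⟩ := h
  exact ⟨fun x => f (g x), hf.comp hg, fun x => e (g x)⟩

theorem PU.of_eq {F G : α → Polynomial ℤ} (h : PU F) (e : ∀ x, F x = G x) : PU G := by
  obtain ⟨f, hf, e'⟩ := h
  exact ⟨f, hf, fun x => (e' x).trans (e x)⟩

theorem PU.const (F : Polynomial ℤ) : PU fun _ : α => F := by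
  obtain ⟨c, hc⟩ := exists_uni F
  exact ⟨fun _ => c, Primrec.const c, fun _ => hc⟩

theorem PU.C {z : α → ℤ} (h : PZ z) : PU fun x => Polynomial.C (z x) := by
  obtain ⟨f, hf, e⟩ := h
  refine ⟨fun x => constC (f x), primrec_constC.comp hf, fun x => ?_⟩
  have h1 : constC (f x) = [((f x).1, (f x).2, 0, 0)] := rfl
  beta_reduce
  rw [h1, uni_cons, uni_nil, add_zero, uterm, pow_zero, mul_one, ← e x, Pool.Agent.H69.AL.iv]

theorem PU.add {F G : α → Polynomial ℤ} (h : PU F) (k : PU G) : PU fun x => F x + G x := by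
  obtain ⟨f, hf, e⟩ := h
  obtain ⟨g, hg, e'⟩ := k
  exact ⟨fun x => f x ++ g x, Primrec.list_append.comp hf hg, fun x => by rw [uni_append, e, e']⟩

theorem PU.mul {F G : α → Polynomial ℤ} (h : PU F) (k : PU G) : PU fun x => F x * G x := by
  obtain ⟨f, hf, e⟩ := h
  obtain ⟨g, hg, e'⟩ := k
  exact ⟨fun x => mulC (f x) (g x), primrec_mulC.comp hf hg, fun x => by rw [uni_mulC, e, e']⟩

theorem PU.neg {F : α → Polynomial ℤ} (h : PU F) : PU fun x => -F x :=
  ((PU.C (PZ.const (-1))).mul h).of_eq fun x => by simp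

theorem PU.sub {F G : α → Polynomial ℤ} (h : PU F) (k : PU G) : PU fun x => F x - G x :=
  (h.add k.neg).of_eq fun x => (sub_eq_add_neg _ _).symm

theorem PU.pow {F : α → Polynomial ℤ} (h : PU F) {n : α → ℕ} (hn : Primrec n) : PU fun x => F x ^ n x := by
  obtain ⟨f, hf, e⟩ := h
  exact ⟨fun x => powC (f x) (n x), primrec_powC.comp hf hn, fun x => by
    rw [uni_eq_eval, toPoly_powC, map_pow, ← uni_eq_eval, e]⟩

theorem PU.ite {c : α → Prop} (hc : PrimrecPred c) [DecidablePred c] {F G : α → Polynomial ℤ} (h : PU F) (k : PU G) :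
    PU fun x => if c x then F x else G x := by
  obtain ⟨f, hf, e⟩ := h
  obtain ⟨g, hg, e'⟩ := k
  refine ⟨fun x => if c x then f x else g x, Primrec.ite hc hf hg, fun x => ?_⟩
  beta_reduce
  by_cases hx : c x
  · rw [if_pos hx, if_pos hx, e x]
  · rw [if_neg hx, if_neg hx, e' x]

/-- sums over ranges -/
theorem PU.sum {F : α → ℕ → Polynomial ℤ} (h : PU fun p : α × ℕ => F p.1 p.2) {n : α → ℕ} (hn : Primrec n) :
    PU fun x => ∑ i ∈ Finset.range (n x), F x i := by
  obtain ⟨f, hf, e⟩ := h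
  refine ⟨fun x => Nat.rec [] (fun i c => c ++ f (x, i)) (n x), ?_, fun x => ?_⟩
  · refine Primrec.nat_rec' (f := n) (g := fun _ => ([] : Code)) (h := fun x (v : ℕ × Code) => v.2 ++ f (x, v.1)) hn
      (Primrec.const []) ?_
    exact Primrec.list_append.comp (Primrec.snd.comp Primrec.snd)
      (hf.comp (Primrec.pair Primrec.fst (Primrec.fst.comp Primrec.snd)))
  · have key : ∀ m : ℕ, uni (Nat.rec (motive := fun _ => Code) [] (fun i c => c ++ f (x, i)) m) =
        ∑ i ∈ Finset.range m, F x i := by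
      intro m
      induction m with
      | zero => simp
      | succ m ih =>
        have e2 : uni (f (x, m)) = F x m := e (x, m)
        rw [Finset.sum_range_succ, ← ih, ← e2]
        change uni (_ ++ f (x, m)) = _
        rw [uni_append]
    exact key (n x)

theorem PU.natDegree {F : α → Polynomial ℤ} (h : PU F) : Primrec fun x => (F x).natDegree := by
  obtain ⟨f, hf, e⟩ := h
  exact (primrec_udC.comp hf).of_eq fun x => by rw [udC_eq, e]

theorem PU.coeff {F : α → Polynomial ℤ} (h : PU F) {i : α → ℕ} (hi : Primrec i) : PZ fun x => (F x).coeff (i x) := by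
  obtain ⟨f, hf, e⟩ := h
  refine ((PR.code (primrec_uniC.comp hf)).coeff hi (Primrec.const 0)).of_eq fun x => ?_
  rw [coeff_uniC, ex_one, if_pos rfl, ex_zero, e]

/-- `s(t)` -/
theorem PU.em {F : α → Polynomial ℤ} (h : PU F) :
    PR fun x => (Polynomial.aeval (MvPolynomial.X 0 : P2) (F x) : P2) := by
  obtain ⟨f, hf, e⟩ := h
  refine ⟨fun x => uniC (f x), primrec_uniC.comp hf, fun x => ?_⟩
  have key : ∀ c : Code, toPoly (uniC c) = Polynomial.aeval (MvPolynomial.X 0 : P2) (uni c) := by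
    intro c
    induction c with
    | nil => simp [uniC]
    | cons t c ih =>
      have h1 : uniC (t :: c) = (t.1, t.2.1, t.2.2.1, 0) :: uniC c := rfl
      rw [h1, toPoly_cons, uni_cons, map_add, ← ih, uterm]
      congr 1
      simp [term]
  rw [key, e]

theorem PU.eq {F G : α → Polynomial ℤ} (h : PU F) (k : PU G) : PrimrecPred fun x => F x = G x := by
  refine (h.em.eq k.em).of_eq fun x => ⟨fun e => ?_, fun e => by rw [e]⟩
  have key : ∀ g : Polynomial ℤ, MvPolynomial.aeval ![(Polynomial.X : Polynomial ℤ), 1]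
      (Polynomial.aeval (MvPolynomial.X 0 : P2) g) = g := by
    intro g
    rw [← Polynomial.aeval_algHom_apply]
    simp
  rw [← key (F x), ← key (G x), e]

theorem PU.ne {F G : α → Polynomial ℤ} (h : PU F) (k : PU G) : PrimrecPred fun x => F x ≠ G x := (h.eq k).not

theorem PZ.sum {F : α → ℕ → ℤ} (h : PZ fun p : α × ℕ => F p.1 p.2) {n : α → ℕ} (hn : Primrec n) :
    PZ fun x => ∑ i ∈ Finset.range (n x), F x i := by
  refine ((PU.sum (F := fun x i => Polynomial.C (F x i)) (PU.C h) hn).coeff (Primrec.const 0)).of_eq fun x => ?_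
  rw [Polynomial.finset_sum_coeff]
  simp

theorem PZ.pow {z : α → ℤ} (h : PZ z) {n : α → ℕ} (hn : Primrec n) : PZ fun x => z x ^ n x := by
  refine (((PU.C h).pow hn).coeff (Primrec.const 0)).of_eq fun x => ?_
  rw [← Polynomial.C_pow, Polynomial.coeff_C_zero]

theorem PZ.abs {z : α → ℤ} (h : PZ z) : PZ fun x => |z x| :=
  (PZ.nat h.natAbs).of_eq fun x => (Int.abs_eq_natAbs _).symm

theorem PZ.le {z w : α → ℤ} (h : PZ z) (k : PZ w) : PrimrecPred fun x => z x ≤ w x := by
  obtain ⟨f, hf, e⟩ := h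
  obtain ⟨g, hg, e'⟩ := k
  have h1 : PrimrecPred fun x => (f x).1 + (g x).2 ≤ (g x).1 + (f x).2 :=
    PrimrecRel.comp Primrec.nat_le (Primrec.nat_add.comp (Primrec.fst.comp hf) (Primrec.snd.comp hg))
      (Primrec.nat_add.comp (Primrec.fst.comp hg) (Primrec.snd.comp hf))
  refine h1.of_eq fun x => ?_
  rw [← e x, ← e' x]
  simp only [Pool.Agent.H69.AL.iv]
  omega

/-- `s(y)` -/
theorem PU.emT {F : α → Polynomial ℤ} (h : PU F) :
    PR fun x => (Polynomial.aeval (MvPolynomial.X 1 : P2) (F x) : P2) := by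
  have hn := h.natDegree
  have h1 : PR fun p : α × ℕ => (MvPolynomial.C ((F p.1).coeff p.2) : P2) * MvPolynomial.X 1 ^ p.2 :=
    (PR.C ((h.comp Primrec.fst).coeff Primrec.snd)).mul ((PR.const (MvPolynomial.X 1)).pow Primrec.snd)
  refine (PR.sum (F := fun x i => (MvPolynomial.C ((F x).coeff i) : P2) * MvPolynomial.X 1 ^ i) h1
    (Primrec.succ.comp hn)).of_eq fun x => ?_
  rw [Polynomial.aeval_eq_sum_range]
  refine Finset.sum_congr rfl fun i _ => ?_
  rw [MvPolynomial.smul_eq_C_mul]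

/-- the derivative -/
theorem PU.derivative {F : α → Polynomial ℤ} (h : PU F) : PU fun x => Polynomial.derivative (F x) := by
  have hn := h.natDegree
  have h1 : PU fun p : α × ℕ => Polynomial.C ((F p.1).coeff (p.2 + 1) * ((p.2 + 1 : ℕ) : ℤ)) * Polynomial.X ^ p.2 :=
    (PU.C (((h.comp Primrec.fst).coeff (Primrec.succ.comp Primrec.snd)).mul
      (PZ.nat (Primrec.succ.comp Primrec.snd)))).mul ((PU.const Polynomial.X).pow Primrec.snd)
  refine (PU.sum (F := fun x i => Polynomial.C ((F x).coeff (i + 1) * ((i + 1 : ℕ) : ℤ)) * Polynomial.X ^ i) h1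
    hn).of_eq fun x => ?_
  ext j
  rw [Polynomial.finset_sum_coeff, Polynomial.coeff_derivative]
  simp only [Polynomial.coeff_C_mul, Polynomial.coeff_X_pow]
  by_cases hj : j < (F x).natDegree
  · rw [Finset.sum_eq_single j]
    · simp
    · intro b _ hb
      simp [hb.symm]
    · intro hb
      exact absurd (Finset.mem_range.2 hj) hb
  · rw [Finset.sum_eq_zero, Polynomial.coeff_eq_zero_of_natDegree_lt (by omega), zero_mul]
    intro b hb
    have := Finset.mem_range.1 hb
    rw [if_neg (by omega), mul_zero]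

/-- `∑ P_l A^l B^(e-l)` -/
theorem PR.hm {P : α → Polynomial ℤ} (hP : PU P) {e : α → ℕ} (he : Primrec e) {A B : α → P2} (hA : PR A) (hB : PR B) :
    PR fun x => hm (P x) (e x) (A x) (B x) := by
  have h1 : PR fun p : α × ℕ => (MvPolynomial.C ((P p.1).coeff p.2) : P2) * A p.1 ^ p.2 * B p.1 ^ (e p.1 - p.2) := by
    refine ((PR.C ((hP.comp Primrec.fst).coeff Primrec.snd)).mul ((hA.comp Primrec.fst).pow Primrec.snd)).mul
      ((hB.comp Primrec.fst).pow (Primrec.nat_sub.comp (he.comp Primrec.fst) Primrec.snd))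
  refine (PR.sum (F := fun x l => (MvPolynomial.C ((P x).coeff l) : P2) * A x ^ l * B x ^ (e x - l)) h1
    (Primrec.succ.comp he)).of_eq fun x => ?_
  rw [Pool.Agent.H98.AL.hm]
  refine Finset.sum_congr rfl fun l _ => ?_
  simp

end Pool.Agent.H99.SG
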