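import Mathlib

/-!
# [H99 SG] Semi-decidable predicates with a primitive recursive check of witnesses

`Sig P`: `P x ↔ ∃ n : ℕ, C x n` with a primitive recursive relation `C`. Closed under primitive recursive substitution, conjunction,
disjunction, existential quantifiers over every coded type and bounded universal quantifiers.
-/

namespace Pool.Agent.H99.SG

/-- semi-decidable: a primitive recursive check of witnesses -/
def Sig {α : Type} [Primcodable α] (P : α → Prop) : Prop :=
  ∃ C : α → ℕ → Prop, PrimrecRel C ∧ ∀ x, P x ↔ ∃ n, C x n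

section

variable {α β : Type} [Primcodable α] [Primcodable β]

theorem Sig.of_iff {P Q : α → Prop} (h : Sig P) (e : ∀ x, P x ↔ Q x) : Sig Q := by
  obtain ⟨C, hC, h⟩ := h
  exact ⟨C, hC, fun x => (e x).symm.trans (h x)⟩

theorem Sig.pr {P : α → Prop} (h : PrimrecPred P) : Sig P :=
  ⟨fun x _ => P x, h.comp Primrec.fst, fun x => ⟨fun h => ⟨0, h⟩, fun ⟨_, h⟩ => h⟩⟩

theorem Sig.comp {P : α → Prop} (h : Sig P) {f : β → α} (hf : Primrec f) : Sig fun x => P (f x) := by
  obtain ⟨C, hC, h⟩ := h
  exact ⟨fun x n => C (f x) n, PrimrecRel.comp hC (hf.comp Primrec.fst) Primrec.snd, fun x => h (f x)⟩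

theorem Sig.and {P Q : α → Prop} (hP : Sig P) (hQ : Sig Q) : Sig fun x => P x ∧ Q x := by
  obtain ⟨C, hC, h⟩ := hP
  obtain ⟨D, hD, k⟩ := hQ
  have u : Primrec fun p : α × ℕ => p.2.unpair := Primrec.unpair.comp Primrec.snd
  refine ⟨fun x n => C x n.unpair.1 ∧ D x n.unpair.2,
    (PrimrecRel.comp hC Primrec.fst (Primrec.fst.comp u)).and (PrimrecRel.comp hD Primrec.fst (Primrec.snd.comp u)),
    fun x => ?_⟩
  change (P x ∧ Q x) ↔ _
  rw [h, k]
  constructor
  · rintro ⟨⟨a, ha⟩, b, hb⟩
    exact ⟨Nat.pair a b, by simpa using ha, by simpa using hb⟩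
  · rintro ⟨n, h1, h2⟩
    exact ⟨⟨_, h1⟩, _, h2⟩

theorem Sig.or {P Q : α → Prop} (hP : Sig P) (hQ : Sig Q) : Sig fun x => P x ∨ Q x := by
  obtain ⟨C, hC, h⟩ := hP
  obtain ⟨D, hD, k⟩ := hQ
  refine ⟨fun x n => C x n ∨ D x n, PrimrecPred.or hC hD, fun x => ?_⟩
  change (P x ∨ Q x) ↔ _
  rw [h, k]
  constructor
  · rintro (⟨a, ha⟩ | ⟨a, ha⟩)
    · exact ⟨a, Or.inl ha⟩
    · exact ⟨a, Or.inr ha⟩
  · rintro ⟨n, h1 | h1⟩
    · exact Or.inl ⟨_, h1⟩
    · exact Or.inr ⟨_, h1⟩

/-- existential quantifier over a coded type -/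
theorem Sig.ex {P : α → β → Prop} (h : Sig fun p : α × β => P p.1 p.2) : Sig fun x => ∃ y, P x y := by
  obtain ⟨C, hC, h⟩ := h
  refine ⟨fun x n => ∃ y ∈ Encodable.decode (α := β) n.unpair.1, C (x, y) n.unpair.2, ?_, fun x => ?_⟩
  · classical
    have hC' : Primrec₂ fun (p : α × β) (n : ℕ) => decide (C p n) := PrimrecRel.decide hC
    have u : Primrec fun p : α × ℕ => p.2.unpair := Primrec.unpair.comp Primrec.snd
    have h1 : Primrec fun p : α × ℕ =>
        (Option.casesOn (Encodable.decode (α := β) p.2.unpair.1) false fun y => decide (C (p.1, y) p.2.unpair.2) :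
          Bool) := by
      refine Primrec.option_casesOn (Primrec.decode.comp (Primrec.fst.comp u)) (Primrec.const false)
        (g := fun (p : α × ℕ) (y : β) => decide (C (p.1, y) p.2.unpair.2)) ?_
      exact hC'.comp (Primrec.pair (Primrec.fst.comp Primrec.fst) Primrec.snd)
        (Primrec.snd.comp (u.comp Primrec.fst))
    have h2 := PrimrecRel.comp Primrec.eq h1 (Primrec.const true)
    refine h2.of_eq fun p => ?_
    cases hd : Encodable.decode (α := β) p.2.unpair.1 with
    | none => simp [hd]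
    | some y => simp [hd]
  · constructor
    · rintro ⟨y, hy⟩
      obtain ⟨n, hn⟩ := (h (x, y)).1 hy
      refine ⟨Nat.pair (Encodable.encode y) n, y, ?_, ?_⟩
      · simp
      · simpa using hn
    · rintro ⟨n, y, -, hn⟩
      exact ⟨y, (h (x, y)).2 ⟨_, hn⟩⟩

/-- bounded universal quantifier -/
theorem Sig.ball {P : α → ℕ → Prop} (h : Sig fun p : α × ℕ => P p.1 p.2) {f : α → ℕ} (hf : Primrec f) :
    Sig fun x => ∀ k < f x, P x k := by
  obtain ⟨C, hC, h⟩ := h
  have key : Sig fun x : α => ∃ l : List ℕ, ∀ k < f x, C (x, k) (l.getD k 0) := by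
    refine Sig.ex (P := fun (x : α) (l : List ℕ) => ∀ k < f x, C (x, k) (l.getD k 0)) (Sig.pr ?_)
    have h1 : PrimrecRel fun (k : ℕ) (p : α × List ℕ) => C (p.1, k) (p.2.getD k 0) := by
      refine PrimrecRel.comp hC (Primrec.pair (Primrec.fst.comp Primrec.snd) Primrec.fst) ?_
      exact (Primrec.list_getD 0).comp (Primrec.snd.comp Primrec.snd) Primrec.fst
    have h2 : PrimrecRel fun (L : List ℕ) (p : α × List ℕ) => ∀ k ∈ L, C (p.1, k) (p.2.getD k 0) :=
      PrimrecRel.forall_mem_list h1
    have h3 := PrimrecRel.comp h2 (Primrec.list_range.comp (hf.comp (Primrec.fst (α := α) (β := List ℕ)))) Primrec.id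
    exact h3.of_eq fun p => by simp
  refine key.of_iff fun x => ?_
  constructor
  · rintro ⟨l, hl⟩ k hk
    exact (h (x, k)).2 ⟨_, hl k hk⟩
  · intro hx
    choose! w hw using fun k (hk : k < f x) => (h (x, k)).1 (hx k hk)
    refine ⟨(List.range (f x)).map w, fun k hk => ?_⟩
    have e : ((List.range (f x)).map w).getD k 0 = w k := by
      simp [List.getD, hk]
    rw [e]
    exact hw k hk

/-- the same with `≤` -/
theorem Sig.ballLe {P : α → ℕ → Prop} (h : Sig fun p : α × ℕ => P p.1 p.2) {f : α → ℕ} (hf : Primrec f) :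
    Sig fun x => ∀ k ≤ f x, P x k :=
  (h.ball (Primrec.succ.comp hf)).of_iff fun _ => by simp [Nat.lt_succ_iff]

/-- the search -/
theorem Sig.search {P : α × β → Prop} (h : Sig P) :
    ∃ A : α →. β, Partrec A ∧ (∀ x, ∀ y ∈ A x, P (x, y)) ∧ ∀ x, (∃ y, P (x, y)) → (A x).Dom := by
  classical
  obtain ⟨C, hC, h⟩ := h
  have hC' : Primrec₂ fun (p : α × β) (n : ℕ) => decide (C p n) := PrimrecRel.decide hC
  let F : α → ℕ → Option β := fun x n =>
    Option.casesOn (Encodable.decode (α := β) n.unpair.1) none fun y => bif decide (C (x, y) n.unpair.2) then some y else none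
  have hF : Primrec₂ F := by
    have u : Primrec fun p : α × ℕ => p.2.unpair := Primrec.unpair.comp Primrec.snd
    refine Primrec.option_casesOn (o := fun p : α × ℕ => Encodable.decode (α := β) p.2.unpair.1)
      (f := fun _ => (none : Option β))
      (g := fun (p : α × ℕ) (y : β) => bif decide (C (p.1, y) p.2.unpair.2) then some y else none)
      (Primrec.decode.comp (Primrec.fst.comp u)) (Primrec.const none) ?_
    refine Primrec.cond ?_ (Primrec.option_some.comp Primrec.snd) (Primrec.const none)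
    exact hC'.comp (Primrec.pair (Primrec.fst.comp Primrec.fst) Primrec.snd)
      (Primrec.snd.comp (u.comp Primrec.fst))
  have hmem : ∀ x n y, y ∈ F x n ↔ Encodable.decode (α := β) n.unpair.1 = some y ∧ C (x, y) n.unpair.2 := by
    intro x n y
    simp only [F]
    cases hd : Encodable.decode (α := β) n.unpair.1 with
    | none => simp
    | some z =>
      by_cases hz : C (x, z) n.unpair.2
      · simp only [hz, decide_true, cond_true, Option.mem_def, Option.some.injEq]
        constructor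
        · rintro rfl
          exact ⟨rfl, hz⟩
        · exact fun k => k.1
      · simp only [hz, decide_false, cond_false, Option.mem_def, Option.some.injEq, reduceCtorEq, false_iff]
        rintro ⟨rfl, k⟩
        exact hz k
  refine ⟨fun x => Nat.rfindOpt (F x), Partrec.rfindOpt hF.to_comp, fun x y hy => ?_, fun x => ?_⟩
  · obtain ⟨n, hn⟩ := Nat.rfindOpt_spec hy
    exact (h (x, y)).2 ⟨_, ((hmem x n y).1 hn).2⟩
  · rintro ⟨y, hy⟩
    obtain ⟨n, hn⟩ := (h (x, y)).1 hy
    refine Nat.rfindOpt_dom.2 ⟨Nat.pair (Encodable.encode y) n, y, (hmem x _ y).2 ⟨by simp, by simpa using hn⟩⟩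

end

end Pool.Agent.H99.SG
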